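import Mathlib
import Pool.Agent.H.MP_49ab16_co.Main

set_option autoImplicit false

namespace Pool.Agent.Results.MP_49ab16_co.Four

theorem result : ∃ (r n : ℕ), 0 < r ∧ r ≤ n ∧ ∃ c : Sym2 (Fin n → Bool) → Fin r,
    ∀ p : ℕ → (Fin n → Bool), (∀ i < n, hammingDist (p i) (p (i + 1)) = 1) →
      (∀ k, p n k = !p 0 k) →
      r ≤ ((Finset.range (n - 1)).filter fun i =>
        c s(p i, p (i + 1)) ≠ c s(p (i + 1), p (i + 2))).card :=
  ⟨4, 8, by norm_num, by norm_num, Pool.Agent.H.MP_49ab16_co.col, Pool.Agent.H.MP_49ab16_co.main⟩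

end Pool.Agent.Results.MP_49ab16_co.Four
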